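import Pool.Agent.N551.TN.Rig
import Pool.Agent.N551.TN.Chain
import Pool.Agent.Results.MP_52f683_gt.Hyperconnected
import Pool.Agent.R728.TH.Noeth

/-!
# Thin spaces with enough convergent sequences are finite
-/

set_option autoImplicit false

open Set Topology Filter Function

universe u

namespace Pool.Agent.N551.TN

open Pool.Agent.H376R4
open Pool.Agent.Results.MP_52f683_gt (Hyperconnected.homog Hyperconnected.not_open_singleton)

variable {S : Type u} [TopologicalSpace S]

theorem range_lm {u : ℕ → S} {y : S} (h : Tendsto u atTop (𝓝 y)) : y ∈ Lm (range u) := by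
  intro V hV
  have h3 := h hV
  rw [mem_map, mem_atTop_sets] at h3
  obtain ⟨N, hN⟩ := h3
  refine ((finite_lt_nat N).image u).subset ?_
  rintro _ ⟨⟨m, rfl⟩, hm⟩
  refine ⟨m, ?_, rfl⟩
  by_contra hlt
  exact hm (hN m (not_lt.1 hlt))

/-- no thin infinite `T₁` space in which every set with an accumulation point contains a
convergent sequence -/
theorem core [T1Space S] [Infinite S] (hS : Thin S)
    (hC : ∀ A : Set S, (H376R4.Acc A).Nonempty → ∃ Z ⊆ A, Z.Infinite ∧ Z.Countable ∧
      (Lm Z).Nonempty) : False := by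
  have hom : ∀ x y : S, ∃ h : S ≃ₜ S, h x = y := Results.MP_52f683_gt.Hyperconnected.homog hS
  have hni : ∀ x : S, ¬ IsOpen ({x} : Set S) :=
    Results.MP_52f683_gt.Hyperconnected.not_open_singleton hS
  have hcg : ∀ C : Set S, (H376R4.Acc C).Nonempty → ∃ E ⊆ C, CG E := by
    intro C hx
    obtain ⟨Z, hZ, h1, h2, y, h3⟩ := hC C hx
    rcases iso_or_cg Z h1 with ⟨Y, hY, hi, hc, hiso⟩ | ⟨Y, hY, hcg⟩
    · have h4 : y ∈ Lm Y := Lm.anti hY h3
      rw [lm_empty hS hom ⟨hi, hc, hiso⟩] at h4
      exact absurd h4 (notMem_empty y)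
    · exact ⟨Y, hY.trans hZ, hcg⟩
  obtain ⟨x⟩ : Nonempty S := inferInstance
  have hx : x ∈ H376R4.Acc (univ : Set S) := by
    intro U hU hf
    rw [inter_univ] at hf
    obtain ⟨V, hVU, hV, hxV⟩ := mem_nhds_iff.1 hU
    apply hni x
    have h1 : IsOpen (V \ (V \ {x})) := hV.sdiff ((hf.subset hVU).subset sdiff_subset).isClosed
    convert h1 using 1
    ext y
    constructor
    · intro hy
      rw [mem_singleton_iff] at hy
      rw [hy]
      exact ⟨hxV, fun h => h.2 rfl⟩
    · rintro ⟨h2, h3⟩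
      by_contra hne
      exact h3 ⟨h2, hne⟩
  obtain ⟨E, _, hE⟩ := hcg _ ⟨x, hx⟩
  apply flat_case' hS hcg _ hE
  intro E' F' hE' hF' hsub
  by_contra hns
  exact no_strict_gen' hS hcg hE' hF' ⟨hsub, hns⟩

/-- an infinite thin space has an infinite thin `T₁` quotient with finite fibres -/
theorem quot [Infinite S] (hS : Thin S) : Thin (SeparationQuotient S) ∧
    Infinite (SeparationQuotient S) ∧ T1Space (SeparationQuotient S) ∧
    ∀ x : S, {y : S | Inseparable y x}.Finite := by
  obtain ⟨_, hT, hI, hT1, hfin⟩ := Results.MP_52f683_gt.Hyperconnected.result S hS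
  exact ⟨hT, hI, hT1, hfin⟩

/-- **the general theorem** -/
theorem enough (hS : Thin S)
    (hC : ∀ (A : Set S) (x : S), (∀ U ∈ 𝓝 x, (U ∩ A).Infinite) →
      ∃ u : ℕ → S, Injective u ∧ (∀ n, u n ∈ A) ∧ ∃ y, Tendsto u atTop (𝓝 y)) : Finite S := by
  by_contra hfin
  rw [not_finite_iff_infinite] at hfin
  obtain ⟨hT, hI, hT1, hcl⟩ := quot hS
  apply core (S := SeparationQuotient S) hT
  rintro A' ⟨q, hq⟩
  obtain ⟨x, rfl⟩ := SeparationQuotient.surjective_mk q
  obtain ⟨u, hu1, hu2, y, hu3⟩ := hC (SeparationQuotient.mk ⁻¹' A') x (by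
    intro U hU hf
    have h1 : SeparationQuotient.mk '' U ∈ 𝓝 (SeparationQuotient.mk x) :=
      SeparationQuotient.isOpenMap_mk.image_mem_nhds hU
    apply hq _ h1
    refine (hf.image SeparationQuotient.mk).subset ?_
    rintro _ ⟨⟨v, hv, rfl⟩, hvA⟩
    exact ⟨v, ⟨hv, hvA⟩, rfl⟩)
  refine ⟨range (fun n => SeparationQuotient.mk (u n)), ?_, ?_, countable_range _,
    SeparationQuotient.mk y, range_lm ((SeparationQuotient.continuous_mk.tendsto y).comp hu3)⟩
  · rintro _ ⟨n, rfl⟩
    exact hu2 n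
  · intro hf
    have h1 : (univ : Set ℕ) ⊆ ⋃ q ∈ range (fun n => SeparationQuotient.mk (u n)),
        {n | SeparationQuotient.mk (u n) = q} := by
      intro n _
      simp only [mem_iUnion]
      exact ⟨SeparationQuotient.mk (u n), ⟨n, rfl⟩, rfl⟩
    refine infinite_univ ((hf.biUnion fun q hq => ?_).subset h1)
    obtain ⟨m, rfl⟩ := hq
    have h2 := hcl (u m)
    refine Finite.of_finite_image (f := u) (h2.subset ?_) hu1.injOn
    rintro _ ⟨n, hn, rfl⟩
    exact SeparationQuotient.mk_eq_mk.1 hn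

/-- sequentially compact thin spaces are finite -/
theorem seqCompact [SeqCompactSpace S] (hS : Thin S) : Finite S := by
  apply enough hS
  intro A x hx
  have hA : A.Infinite := (hx univ univ_mem).mono inter_subset_right
  have : Infinite A := hA.to_subtype
  obtain ⟨y, φ, hφ, hy⟩ := SeqCompactSpace.tendsto_subseq (fun n => ((Infinite.natEmbedding A n : A) : S))
  refine ⟨_, ?_, fun n => (Infinite.natEmbedding A (φ n)).2, y, hy⟩
  intro m n hmn
  exact hφ.injective ((Infinite.natEmbedding A).injective (Subtype.ext hmn))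

/-- sequential thin spaces are finite -/
theorem sequential [SequentialSpace S] (hS : Thin S) : Finite S := by
  by_contra hfin
  rw [not_finite_iff_infinite] at hfin
  obtain ⟨hT, hI, hT1, _⟩ := quot hS
  have hseq : SequentialSpace (SeparationQuotient S) :=
    SeparationQuotient.isQuotientMap_mk.sequentialSpace
  apply core (S := SeparationQuotient S) hT
  rintro A ⟨x, hx⟩
  have h1 : ¬ IsClosed (A \ {x}) := by
    intro hcl
    have h2 : x ∈ A \ {x} := by
      rw [← hcl.closure_eq, mem_closure_iff_nhds]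
      intro U hU
      obtain ⟨y, hy1, hy2⟩ := ((hx U hU).sdiff (finite_singleton x)).nonempty
      exact ⟨y, hy1.1, hy1.2, hy2⟩
    exact h2.2 rfl
  rw [← isSeqClosed_iff_isClosed] at h1
  unfold IsSeqClosed at h1
  push Not at h1
  obtain ⟨u, y, hu, hlim, hy⟩ := h1
  refine ⟨range u, ?_, ?_, countable_range u, y, range_lm hlim⟩
  · rintro _ ⟨n, rfl⟩
    exact (hu n).1
  · intro hf
    have h2 : y ∈ range u := hf.isClosed.mem_of_tendsto hlim (Eventually.of_forall fun n => ⟨n, rfl⟩)
    obtain ⟨n, rfl⟩ := h2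
    exact hy (hu n)

end Pool.Agent.N551.TN
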