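import Pool.Agent.N551.TN.Core

/-!
# Infinite thin spaces contain discrete sequences, and no discrete sequence converges
-/

set_option autoImplicit false

open Set Topology Filter Function

universe u

namespace Pool.Agent.N551.TN

open Pool.Agent.H376R4

variable {S : Type u} [TopologicalSpace S]

/-- every infinite thin `T₁` space contains an infinite discrete sequence -/
theorem exists_di [T1Space S] [Infinite S] (hS : Thin S) : ∃ Z : Set S, DI Z := by
  by_contra hno
  apply core hS
  intro A hA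
  have hAi : A.Infinite := by
    obtain ⟨x, hx⟩ := hA
    exact (hx univ univ_mem).mono inter_subset_right
  rcases iso_or_cg A hAi with ⟨Y, hY, hi, hc, hiso⟩ | ⟨Y, hY, hcg⟩
  · exact absurd ⟨Y, hi, hc, hiso⟩ hno
  · obtain ⟨y, hy⟩ := hcg.1.1.nonempty
    exact ⟨Y, hY, hcg.1.1, hcg.1.2.1, y, hcg.1.2.2 (hcg.2 hy)⟩

/-- **no discrete sequence converges** -/
theorem no_limit [Infinite S] (hS : Thin S) (w : ℕ → S)
    (hw : ∀ n, ∃ U ∈ 𝓝 (w n), ∀ m, m ≠ n → w m ∉ U) (y : S) : ¬ Tendsto w atTop (𝓝 y) := by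
  intro hlim
  obtain ⟨hT, hI, hT1, _⟩ := quot hS
  have hom : ∀ x y : SeparationQuotient S, ∃ h : SeparationQuotient S ≃ₜ SeparationQuotient S,
      h x = y := Results.MP_52f683_gt.Hyperconnected.homog hT
  have h1 : ∀ n, ∃ U ∈ 𝓝 (SeparationQuotient.mk (w n)), ∀ m, m ≠ n →
      SeparationQuotient.mk (w m) ∉ U := by
    intro n
    obtain ⟨U, hU, hm⟩ := hw n
    obtain ⟨V, hVU, hV, hnV⟩ := mem_nhds_iff.1 hU
    refine ⟨SeparationQuotient.mk '' V,
      (SeparationQuotient.isOpenMap_mk V hV).mem_nhds ⟨_, hnV, rfl⟩, ?_⟩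
    rintro m hmn ⟨v, hv, he⟩
    apply hm m hmn
    apply hVU
    have h2 : Inseparable v (w m) := SeparationQuotient.mk_eq_mk.1 he
    exact (h2.mem_open_iff hV).1 hv
  have hinj : Injective fun n => SeparationQuotient.mk (w n) := by
    intro a b hab
    by_contra hne
    obtain ⟨U, hU, hm⟩ := h1 b
    apply hm a hne
    have hab' : SeparationQuotient.mk (w a) = SeparationQuotient.mk (w b) := hab
    rw [hab']
    exact mem_of_mem_nhds hU
  have hdi : DI (range fun n => SeparationQuotient.mk (w n)) := by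
    refine ⟨infinite_range_of_injective hinj, countable_range _, ?_⟩
    rintro _ ⟨n, rfl⟩ ha
    obtain ⟨U, hU, hm⟩ := h1 n
    apply ha U hU
    refine (finite_singleton (SeparationQuotient.mk (w n))).subset ?_
    rintro _ ⟨hx, m, rfl⟩
    by_contra hne
    apply hm m _ hx
    rintro rfl
    exact hne rfl
  have h2 : SeparationQuotient.mk y ∈ Lm (range fun n => SeparationQuotient.mk (w n)) :=
    range_lm ((SeparationQuotient.continuous_mk.tendsto y).comp hlim)
  rw [lm_empty hT hom hdi] at h2
  exact h2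

/-- every infinite thin space contains a discrete sequence -/
theorem exists_seq [Infinite S] (hS : Thin S) :
    ∃ w : ℕ → S, ∀ n, ∃ U ∈ 𝓝 (w n), ∀ m, m ≠ n → w m ∉ U := by
  obtain ⟨hT, hI, hT1, _⟩ := quot hS
  obtain ⟨Z, hZ⟩ := exists_di hT
  have : Infinite Z := hZ.inf.to_subtype
  let v : ℕ → Z := fun n => Infinite.natEmbedding Z n
  have hv : Injective v := (Infinite.natEmbedding Z).injective
  choose w hw using fun n => SeparationQuotient.surjective_mk (v n : SeparationQuotient S)
  refine ⟨w, fun n => ?_⟩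
  have h1 := hZ.iso (v n) (v n).2
  obtain ⟨U, hU, hnU, hf⟩ := notMem_acc.1 h1
  -- remove the finitely many other points
  have h2 : IsOpen (U \ ((U ∩ Z) \ {(v n : SeparationQuotient S)})) :=
    hU.sdiff (hf.subset sdiff_subset).isClosed
  refine ⟨SeparationQuotient.mk ⁻¹' (U \ ((U ∩ Z) \ {(v n : SeparationQuotient S)})),
    (h2.preimage SeparationQuotient.continuous_mk).mem_nhds ?_, ?_⟩
  · refine ⟨?_, fun h => h.2 ?_⟩
    · show SeparationQuotient.mk (w n) ∈ U
      rw [hw]
      exact hnU
    · show SeparationQuotient.mk (w n) = _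
      rw [hw]
  · rintro m hmn ⟨h3, h4⟩
    apply h4
    refine ⟨⟨h3, ?_⟩, ?_⟩
    · show SeparationQuotient.mk (w m) ∈ Z
      rw [hw]
      exact (v m).2
    · intro h5
      have h6 : SeparationQuotient.mk (w m) = (v n : SeparationQuotient S) := h5
      rw [hw] at h6
      exact hmn (hv (Subtype.ext h6))

end Pool.Agent.N551.TN
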