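import Pool.Agent.H376R4.Thin6

/-!
# Thin spaces: no infinite discrete sequence converges
-/

set_option autoImplicit false

open Set Topology Filter Function

universe u

namespace Pool.Agent.N551.TN

open Pool.Agent.H376R4

variable {S : Type u} [TopologicalSpace S]

theorem not_lm {X : Set S} {b : S} (h : b ∉ Lm X) : ∃ Y ⊆ X, Y.Infinite ∧ b ∉ Acc Y := by
  have h1 : ∃ U ∈ 𝓝 b, ¬ (X \ U).Finite := by
    by_contra hcon
    apply h
    intro U hU
    by_contra hf
    exact hcon ⟨U, hU, hf⟩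
  obtain ⟨U, hU, hf⟩ := h1
  refine ⟨X \ U, sdiff_subset, hf, fun hb => ?_⟩
  apply hb U hU
  have h2 : U ∩ (X \ U) = ∅ := by
    ext x
    simp only [mem_inter_iff, Set.mem_sdiff, mem_empty_iff_false, iff_false]
    tauto
  rw [h2]
  exact finite_empty

/-- every infinite set contains an infinite set which decides a given countable set of points -/
theorem decide_pts {A B : Set S} (hA : A.Infinite) (hB : B.Countable) :
    ∃ A' ⊆ A, A'.Infinite ∧ A'.Countable ∧ ∀ b ∈ B, b ∉ Acc A' ∨ b ∈ Lm A' := by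
  classical
  rcases B.eq_empty_or_nonempty with rfl | hne
  · obtain ⟨D, h4, h5, h6⟩ := hA.exists_subset_countable_infinite
    exact ⟨D, h4, h6, h5, fun b hb => absurd hb (notMem_empty b)⟩
  obtain ⟨e, he⟩ := hB.exists_eq_range hne
  have step : ∀ (W : {W : Set S // W ⊆ A ∧ W.Infinite}) (n : ℕ),
      ∃ W' : {W : Set S // W ⊆ A ∧ W.Infinite}, W'.1 ⊆ W.1 ∧ (e n ∉ Acc W'.1 ∨ e n ∈ Lm W'.1) := by
    rintro ⟨W, hWA, hWi⟩ n
    by_cases h : e n ∈ Lm W
    · exact ⟨⟨W, hWA, hWi⟩, Subset.rfl, Or.inr h⟩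
    · obtain ⟨Y, h1, h2, h3⟩ := not_lm h
      exact ⟨⟨Y, h1.trans hWA, h2⟩, h1, Or.inl h3⟩
  choose nxt hn1 hn2 using step
  let g : ℕ → {W : Set S // W ⊆ A ∧ W.Infinite} := fun n =>
    Nat.rec ⟨A, Subset.rfl, hA⟩ (fun n W => nxt W n) n
  have hg1 : ∀ n, (g (n+1)).1 ⊆ (g n).1 := fun n => hn1 (g n) n
  have hg2 : ∀ n, e n ∉ Acc (g (n+1)).1 ∨ e n ∈ Lm (g (n+1)).1 := fun n => hn2 (g n) n
  obtain ⟨Z, hZ, hZi, hZc, hZf⟩ := pick_seq (fun n => (g n).1) (antitone_nat_of_succ_le hg1)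
    (fun n => (g n).2.2)
  refine ⟨Z, hZ, hZi, hZc, fun b hb => ?_⟩
  rw [he] at hb
  obtain ⟨n, rfl⟩ := hb
  have hsub : Z ⊆ (g (n+1)).1 ∪ (Z \ (g (n+1)).1) := by
    intro x hx
    by_cases hxg : x ∈ (g (n+1)).1
    · exact Or.inl hxg
    · exact Or.inr ⟨hx, hxg⟩
  rcases hg2 n with h | h
  · left
    intro hZa
    rcases Acc.union _ _ (Acc.mono hsub hZa) with h1 | h1
    · exact h h1
    · rw [acc_finite (hZf (n+1))] at h1
      exact h1
  · right
    intro U hU
    refine ((hZf (n+1)).union (h U hU)).subset ?_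
    rintro x ⟨hx, hxU⟩
    by_cases hxg : x ∈ (g (n+1)).1
    · exact Or.inr ⟨hxg, hxU⟩
    · exact Or.inl ⟨hx, hxg⟩

/-- countably infinite relatively discrete sets -/
structure DI (X : Set S) : Prop where
  inf : X.Infinite
  cnt : X.Countable
  iso : Iso X

theorem DI.sub {X Y : Set S} (h : DI X) (hY : Y ⊆ X) (hi : Y.Infinite) : DI Y :=
  ⟨hi, h.cnt.mono hY, h.iso.sub hY⟩

theorem DI.union {A B : Set S} (hA : DI A) (hB : DI B) (h1 : ∀ x ∈ A, x ∉ Acc B)
    (h2 : ∀ x ∈ B, x ∉ Acc A) : DI (A ∪ B) := by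
  refine ⟨hA.inf.mono subset_union_left, hA.cnt.union hB.cnt, ?_⟩
  rintro x (hx | hx) hxa
  · rcases Acc.union _ _ hxa with h | h
    · exact hA.iso x hx h
    · exact h1 x hx h
  · rcases Acc.union _ _ hxa with h | h
    · exact h2 x hx h
    · exact hB.iso x hx h

section thin

variable [T1Space S] (hS : Thin S)

include hS

theorem lm_sub {D D' : Set S} (hD : DI D) (hs : D' ⊆ D) (hi : D'.Infinite) : Lm D' = Lm D := by
  have hD' := hD.sub hs hi
  exact Subset.antisymm (lm_rigid hS hD.inf hD.cnt hD.iso hD'.inf hD'.cnt hD'.iso (Lm.anti hs))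
    (Lm.anti hs)

theorem lm_union {A B : Set S} (hA : A.Infinite) (hB : B.Infinite) (h : DI (A ∪ B)) :
    Lm A = Lm B := by
  rw [lm_sub hS h subset_union_left hA, lm_sub hS h subset_union_right hB]

/-- no point of the first set is an accumulation point of the second set -/
theorem lm_two {A B : Set S} (hA : DI A) (hB : DI B) (h2 : ∀ x ∈ A, x ∉ Acc B) :
    Lm A = Lm B := by
  obtain ⟨A', hs, hi, hc, hdec⟩ := decide_pts hA.inf hB.cnt
  have hA' := hA.sub hs hi
  have e1 : Lm A' = Lm A := lm_sub hS hA hs hi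
  by_cases hf : (B \ Lm A').Infinite
  · have hB1 := hB.sub sdiff_subset hf
    have hu : DI (A' ∪ (B \ Lm A')) := by
      refine hA'.union hB1 (fun x hx hxa => ?_) (fun x hx hxa => ?_)
      · exact h2 x (hs hx) (Acc.mono sdiff_subset hxa)
      · rcases hdec x hx.1 with h3 | h3
        · exact h3 hxa
        · exact hx.2 h3
    rw [← e1, lm_union hS hi hf hu, lm_sub hS hB sdiff_subset hf]
  · have hB2 : (B ∩ Lm A').Infinite := by
      intro h3
      apply hB.inf
      refine (h3.union (not_infinite.1 hf)).subset ?_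
      intro x hx
      by_cases hxl : x ∈ Lm A'
      · exact Or.inl ⟨hx, hxl⟩
      · exact Or.inr ⟨hx, hxl⟩
    have hB2' := hB.sub inter_subset_left hB2
    have h3 : Acc (B ∩ Lm A') ⊆ Lm A' := acc_subset (isClosed_lm A') inter_subset_right
    have h4 : Lm B ⊆ Lm A := by
      rw [← lm_sub hS hB inter_subset_left hB2, ← e1]
      exact (Lm.subset_acc hB2).trans h3
    have h5 : Lm A ⊆ Lm B := lm_rigid hS hB.inf hB.cnt hB.iso hA.inf hA.cnt hA.iso h4
    exfalso
    obtain ⟨x, hx⟩ := hB2.nonempty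
    have h6 : x ∈ Lm B := h5 (by rw [← e1]; exact hx.2)
    rw [← lm_sub hS hB inter_subset_left hB2] at h6
    exact hB2'.iso x hx (Lm.subset_acc hB2 h6)

/-- all infinite discrete sequences have the same limits -/
theorem lm_eq {D E : Set S} (hD : DI D) (hE : DI E) : Lm D = Lm E := by
  have split : ∀ X Y : Set S, X.Infinite → (X \ Y).Infinite ∨ (X ∩ Y).Infinite := by
    intro X Y hX
    by_contra hcon
    rw [not_or, not_infinite, not_infinite] at hcon
    apply hX
    refine (hcon.1.union hcon.2).subset ?_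
    intro x hx
    by_cases hxy : x ∈ Y
    · exact Or.inr ⟨hx, hxy⟩
    · exact Or.inl ⟨hx, hxy⟩
  rcases split D (Acc E) hD.inf with h1 | h1
  · have hD1 := hD.sub sdiff_subset h1
    rcases split E (Acc (D \ Acc E)) hE.inf with h2 | h2
    · have hE1 := hE.sub sdiff_subset h2
      have hu : DI ((D \ Acc E) ∪ (E \ Acc (D \ Acc E))) := by
        refine hD1.union hE1 (fun x hx hxa => ?_) (fun x hx hxa => hx.2 hxa)
        exact hx.2 (Acc.mono sdiff_subset hxa)
      rw [← lm_sub hS hD sdiff_subset h1, lm_union hS h1 h2 hu, lm_sub hS hE sdiff_subset h2]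
    · have hE2 := hE.sub inter_subset_left h2
      rw [← lm_sub hS hD sdiff_subset h1, ← lm_sub hS hE inter_subset_left h2]
      exact lm_two hS hD1 hE2 (fun x hx hxa => hx.2 (Acc.mono inter_subset_left hxa))
  · have hD2 := hD.sub inter_subset_left h1
    rw [← lm_sub hS hD inter_subset_left h1]
    refine (lm_two hS hE hD2 (fun x hx hxa => ?_)).symm
    exact hE.iso x hx (acc_subset (isClosed_acc E) inter_subset_right hxa)

/-- **no infinite discrete sequence converges** -/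
theorem lm_empty (hom : ∀ x y : S, ∃ h : S ≃ₜ S, h x = y) {D : Set S} (hD : DI D) : Lm D = ∅ := by
  by_contra hne
  obtain ⟨p, hp⟩ := nonempty_iff_ne_empty.2 hne
  obtain ⟨q, hq⟩ := hD.inf.nonempty
  obtain ⟨h, hh⟩ := hom p q
  have hE : DI (h '' D) := ⟨hD.inf.image h.injective.injOn, hD.cnt.image _, hD.iso.image h⟩
  have h1 : q ∈ Lm (h '' D) := by
    rw [lm_image_eq]
    exact ⟨p, hp, hh⟩
  rw [lm_eq hS hE hD] at h1
  exact hD.iso q hq (Lm.subset_acc hD.inf h1)

end thin

end Pool.Agent.N551.TN
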