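import Pool.Agent.N551.TN.Disc

/-!
# The accumulation points of a discrete sequence in a thin space
-/

set_option autoImplicit false

open Set Topology Filter Function

universe u

namespace Pool.Agent.N551.TN

open Pool.Agent.H376R4

variable {S : Type u} [TopologicalSpace S]

/-- the set of accumulation points of a discrete set is empty or uncountable -/
theorem acc_unc [T1Space S] (hS : Thin S) (hom : ∀ x y : S, ∃ h : S ≃ₜ S, h x = y) {D : Set S}
    (hD : DI D) (hc : (H376R4.Acc D).Countable) : H376R4.Acc D = ∅ := by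
  obtain ⟨A, hs, hi, hcn, hdec⟩ := decide_pts hD.inf hc
  have hA := hD.sub hs hi
  have h1 : H376R4.Acc A = ∅ := by
    rw [eq_empty_iff_forall_notMem]
    intro b hb
    rcases hdec b (Acc.mono hs hb) with h | h
    · exact h hb
    · rw [lm_empty hS hom hA] at h
      exact h
  obtain ⟨h, hh⟩ := iso_conj hS hA.inf hA.cnt hA.iso hD.inf hD.cnt hD.iso
  rw [← hh, acc_image, h1, image_empty]

/-- the image of a discrete sequence in the quotient -/
theorem di_range (w : ℕ → S) (hw : ∀ n, ∃ U ∈ 𝓝 (w n), ∀ m, m ≠ n → w m ∉ U) :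
    Injective (fun n => SeparationQuotient.mk (w n)) ∧
      DI (range fun n => SeparationQuotient.mk (w n)) := by
  have h1 : ∀ n, ∃ U ∈ 𝓝 (SeparationQuotient.mk (w n)), ∀ m, m ≠ n →
      SeparationQuotient.mk (w m) ∉ U := by
    intro n
    obtain ⟨U, hU, hm⟩ := hw n
    obtain ⟨V, hVU, hV, hnV⟩ := mem_nhds_iff.1 hU
    refine ⟨SeparationQuotient.mk '' V,
      (SeparationQuotient.isOpenMap_mk V hV).mem_nhds ⟨_, hnV, rfl⟩, ?_⟩
    rintro m hmn ⟨v, hv, he⟩
    apply hm m hmn
    apply hVU
    have h2 : Inseparable v (w m) := SeparationQuotient.mk_eq_mk.1 he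
    exact (h2.mem_open_iff hV).1 hv
  have hinj : Injective fun n => SeparationQuotient.mk (w n) := by
    intro a b hab
    by_contra hne
    obtain ⟨U, hU, hm⟩ := h1 b
    apply hm a hne
    have hab' : SeparationQuotient.mk (w a) = SeparationQuotient.mk (w b) := hab
    rw [hab']
    exact mem_of_mem_nhds hU
  refine ⟨hinj, infinite_range_of_injective hinj, countable_range _, ?_⟩
  rintro _ ⟨n, rfl⟩ ha
  obtain ⟨U, hU, hm⟩ := h1 n
  apply ha U hU
  refine (finite_singleton (SeparationQuotient.mk (w n))).subset ?_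
  rintro _ ⟨hx, m, rfl⟩
  by_contra hne
  apply hm m _ hx
  rintro rfl
  exact hne rfl

theorem acc_seq [Infinite S] (hS : Thin S) (w : ℕ → S)
    (hw : ∀ n, ∃ U ∈ 𝓝 (w n), ∀ m, m ≠ n → w m ∉ U)
    (hc : {y : S | ∀ U ∈ 𝓝 y, {n | w n ∈ U}.Infinite}.Countable) (y : S) :
    ∃ U ∈ 𝓝 y, {n | w n ∈ U}.Finite := by
  obtain ⟨hT, hI, hT1, _⟩ := quot hS
  have hom : ∀ x y : SeparationQuotient S, ∃ h : SeparationQuotient S ≃ₜ SeparationQuotient S,
      h x = y := Results.MP_52f683_gt.Hyperconnected.homog hT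
  obtain ⟨hinj, hdi⟩ := di_range w hw
  have key : ∀ y : S, SeparationQuotient.mk y ∈
      H376R4.Acc (range fun n => SeparationQuotient.mk (w n)) →
      ∀ U ∈ 𝓝 y, {n | w n ∈ U}.Infinite := by
    intro y hy U hU hf
    obtain ⟨V, hVU, hV, hyV⟩ := mem_nhds_iff.1 hU
    apply hy (SeparationQuotient.mk '' V)
      ((SeparationQuotient.isOpenMap_mk V hV).mem_nhds ⟨_, hyV, rfl⟩)
    refine (hf.image fun n => SeparationQuotient.mk (w n)).subset ?_
    rintro _ ⟨⟨v, hv, he⟩, n, rfl⟩
    refine ⟨n, ?_, rfl⟩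
    have h2 : Inseparable v (w n) := SeparationQuotient.mk_eq_mk.1 he
    exact hVU ((h2.mem_open_iff hV).1 hv)
  have h1 : (H376R4.Acc (range fun n => SeparationQuotient.mk (w n))).Countable := by
    refine (hc.image SeparationQuotient.mk).mono ?_
    intro q hq
    obtain ⟨y, rfl⟩ := SeparationQuotient.surjective_mk q
    exact ⟨y, key y hq, rfl⟩
  have h2 := acc_unc hT hom hdi h1
  have h3 : SeparationQuotient.mk y ∉
      H376R4.Acc (range fun n => SeparationQuotient.mk (w n)) := by
    rw [h2]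
    exact notMem_empty _
  obtain ⟨U, hU, hyU, hf⟩ := notMem_acc.1 h3
  refine ⟨SeparationQuotient.mk ⁻¹' U,
    (hU.preimage SeparationQuotient.continuous_mk).mem_nhds hyU, ?_⟩
  have h4 := hf.preimage (f := fun n => SeparationQuotient.mk (w n)) hinj.injOn
  refine h4.subset ?_
  intro n hn
  exact ⟨hn, n, rfl⟩

/-- countable compact thin spaces are finite -/
theorem cpt [Countable S] [CompactSpace S] (hS : Thin S) : Finite S := by
  by_contra hfin
  rw [not_finite_iff_infinite] at hfin
  obtain ⟨w, hw⟩ := exists_seq hS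
  have h1 := acc_seq hS w hw (to_countable _)
  obtain ⟨y, hy⟩ := exists_clusterPt_of_compactSpace (map w atTop)
  obtain ⟨U, hU, hf⟩ := h1 y
  have h2 : MapClusterPt y atTop w := hy
  have h3 := h2.frequently hU
  rw [Nat.frequently_atTop_iff_infinite] at h3
  exact h3 hf

end Pool.Agent.N551.TN
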